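import Mathlib

/-! Points of the curves y^2 = x^3 + d. -/

set_option autoImplicit false

noncomputable section

namespace Pool.Agent.MP_adc87d_lc

open WeierstrassCurve

section

variable {F : Type} [Field F]

/-- the curve y^2 = x^3 + d -/
def Ed (d : F) : WeierstrassCurve F := ⟨0, 0, 0, 0, d⟩

/-- its group of points -/
def Pt (d : F) : Type := (Ed d).toAffine.Point

instance (d : F) : AddCommGroup (Pt d) :=
  letI := Classical.decEq F
  inferInstanceAs (AddCommGroup (Ed d).toAffine.Point)

variable {d : F}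

/-- first coordinate, zero at the origin -/
def px : Pt d → F
  | .zero => 0
  | .some x _ _ => x

/-- second coordinate, zero at the origin -/
def py : Pt d → F
  | .zero => 0
  | .some _ y _ => y

theorem px_zero : px (0 : Pt d) = 0 := rfl

theorem py_zero : py (0 : Pt d) = 0 := rfl

theorem eqn_of {x y : F} (h : (Ed d).toAffine.Nonsingular x y) : y ^ 2 = x ^ 3 + d := by
  have := (Affine.equation_iff _ _).1 h.1
  simpa [Ed] using this

theorem eqn {R : Pt d} (h : R ≠ 0) : py R ^ 2 = px R ^ 3 + d := by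
  rcases R with _ | ⟨x, y, e⟩
  · exact absurd rfl h
  · exact eqn_of e

theorem exists_pt [CharZero F] (hd : d ≠ 0) {x y : F} (h : y ^ 2 = x ^ 3 + d) :
    ∃ R : Pt d, R ≠ 0 ∧ px R = x ∧ py R = y := by
  have e : (Ed d).toAffine.Nonsingular x y := by
    rw [← Affine.equation_iff_nonsingular_of_Δ_ne_zero]
    · rw [Affine.equation_iff]; simpa [Ed] using h
    · simp [Ed, WeierstrassCurve.Δ, b₂, b₄, b₆, b₈, hd]
  exact ⟨.some x y e, Affine.Point.some_ne_zero e, rfl, rfl⟩

theorem ext_pt {R S : Pt d} (hR : R ≠ 0) (hS : S ≠ 0) (hx : px R = px S) (hy : py R = py S) :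
    R = S := by
  rcases R with _ | ⟨x, y, e⟩
  · exact absurd rfl hR
  rcases S with _ | ⟨x', y', e'⟩
  · exact absurd rfl hS
  obtain rfl : x = x' := hx
  obtain rfl : y = y' := hy
  rfl

theorem px_neg (R : Pt d) : px (-R) = px R := by
  rcases R with _ | ⟨x, y, e⟩ <;> rfl

theorem py_neg (R : Pt d) : py (-R) = -py R := by
  rcases R with _ | ⟨x, y, e⟩
  · exact (_root_.neg_zero).symm
  · change (Ed d).toAffine.negY x y = -y
    simp [Ed]

theorem add_eq_zero_iff {R S : Pt d} (hR : R ≠ 0) (hS : S ≠ 0) :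
    R + S = 0 ↔ px S = px R ∧ py S = -py R := by
  rw [add_eq_zero_iff_neg_eq]
  constructor
  · rintro rfl
    exact ⟨px_neg R, py_neg R⟩
  · rintro ⟨h1, h2⟩
    exact ext_pt (neg_ne_zero.2 hR) hS (by rw [px_neg, h1]) (by rw [py_neg, h2])

theorem eq_or_neg {R S : Pt d} (hR : R ≠ 0) (hS : S ≠ 0) (h : px R = px S) :
    R = S ∨ R = -S := by
  have h1 := eqn hR
  have h2 := eqn hS
  have : (py R - py S) * (py R + py S) = 0 := by rw [h] at h1; linear_combination h1 - h2
  rcases mul_eq_zero.1 this with e | e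
  · exact .inl (ext_pt hR hS h (sub_eq_zero.1 e))
  · exact .inr (ext_pt hR (neg_ne_zero.2 hS) (by rw [px_neg, h])
      (by rw [py_neg]; linear_combination e))

/-- the addition law -/
theorem add_data {R S : Pt d} (hR : R ≠ 0) (hS : S ≠ 0) (h : R + S ≠ 0) :
    ∃ m : F, py S - py R = m * (px S - px R) ∧
      m * (py R + py S) = px R ^ 2 + px R * px S + px S ^ 2 ∧
      px (R + S) = m ^ 2 - px R - px S ∧ py (R + S) = m * (px R - px (R + S)) - py R := by
  let _ := Classical.decEq F
  have h' := mt (add_eq_zero_iff hR hS).2 h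
  have h1 := eqn hR
  have h2 := eqn hS
  rcases R with _ | ⟨x, y, e⟩
  · exact absurd rfl hR
  rcases S with _ | ⟨x', y', e'⟩
  · exact absurd rfl hS
  change ¬(x' = x ∧ y' = -y) at h'
  change y ^ 2 = x ^ 3 + d at h1
  change y' ^ 2 = x' ^ 3 + d at h2
  have hxy : ¬(x = x' ∧ y = (Ed d).toAffine.negY x' y') := by
    rintro ⟨a, b⟩
    refine h' ⟨a.symm, ?_⟩
    rw [b]; simp [Ed]
  have key : (HAdd.hAdd (α := Pt d) (β := Pt d) (.some x y e) (.some x' y' e') : Pt d) =
      .some _ _ (Affine.nonsingular_add e e' hxy) := Affine.Point.add_some hxy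
  refine ⟨(Ed d).toAffine.slope x x' y y', ?_, ?_, ?_, ?_⟩
  · change y' - y = _ * (x' - x)
    by_cases hx : x = x'
    · subst hx
      have : (y' - y) * (y' + y) = 0 := by linear_combination h2 - h1
      rcases mul_eq_zero.1 this with a | a
      · rw [a, sub_self, mul_zero]
      · exact absurd ⟨rfl, by linear_combination a⟩ h'
    · rw [Affine.slope_of_X_ne hx]
      field_simp [sub_ne_zero.2 hx]
      ring
  · change _ * (y + y') = x ^ 2 + x * x' + x' ^ 2
    by_cases hx : x = x'
    · subst hx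
      have hy : y ≠ (Ed d).toAffine.negY x y' := fun a => hxy ⟨rfl, a⟩
      have hyy : y = y' := Affine.Y_eq_of_Y_ne e.1 e'.1 rfl hy
      subst hyy
      rw [Affine.slope_of_Y_ne rfl hy]
      have h0 : y - (Ed d).toAffine.negY x y = y + y := by simp [Ed]
      have h3 : y + y ≠ 0 := h0 ▸ sub_ne_zero.2 hy
      rw [h0, div_mul_cancel₀ _ h3]
      simp [Ed]
      ring
    · rw [Affine.slope_of_X_ne hx, div_mul_eq_mul_div, div_eq_iff (sub_ne_zero.2 hx)]
      linear_combination h1 - h2
  · rw [key]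
    change (Ed d).toAffine.addX x x' _ = _ - x - x'
    simp [Ed]
  · rw [key]
    change (Ed d).toAffine.addY x x' y _ = _ * (x - (Ed d).toAffine.addX x x' _) - y
    simp [Ed, Affine.addY]
    ring

/-- the slope is determined by the two relations -/
theorem add_of {R S : Pt d} (hR : R ≠ 0) (hS : S ≠ 0) (h : R + S ≠ 0) {m : F}
    (h1 : py S - py R = m * (px S - px R))
    (h2 : m * (py R + py S) = px R ^ 2 + px R * px S + px S ^ 2) :
    px (R + S) = m ^ 2 - px R - px S ∧ py (R + S) = m * (px R - px (R + S)) - py R := by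
  obtain ⟨m', a1, a2, a3, a4⟩ := add_data hR hS h
  obtain rfl : m' = m := by
    by_contra hm
    refine h ((add_eq_zero_iff hR hS).2 ⟨?_, ?_⟩)
    · have : (m' - m) * (px S - px R) = 0 := by linear_combination h1 - a1
      exact sub_eq_zero.1 ((mul_eq_zero.1 this).resolve_left (sub_ne_zero.2 hm))
    · have : (m' - m) * (py R + py S) = 0 := by linear_combination a2 - h2
      have := (mul_eq_zero.1 this).resolve_left (sub_ne_zero.2 hm)
      linear_combination this
  exact ⟨a3, a4⟩

/-- change of field and of scale -/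
theorem exists_scale {F' : Type} [Field F'] [CharZero F'] (f : F →+* F') {u d' : F'} (hu : u ≠ 0)
    (hd' : d' ≠ 0) (e : d' = u ^ 6 * f d) :
    ∃ ψ : Pt d →+ Pt d', Function.Injective ψ ∧ (∀ R, px (ψ R) = u ^ 2 * f (px R)) ∧
      ∀ R, py (ψ R) = u ^ 3 * f (py R) := by
  classical
  have : ∀ R : Pt d, ∃ S : Pt d', (S = 0 ↔ R = 0) ∧ px S = u ^ 2 * f (px R) ∧
      py S = u ^ 3 * f (py R) := fun R => by
    by_cases h : R = 0
    · exact ⟨0, by simp [h], by simp [h, px_zero], by simp [h, py_zero]⟩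
    · obtain ⟨S, h0, h1, h2⟩ := exists_pt hd' (x := u ^ 2 * f (px R)) (y := u ^ 3 * f (py R)) (by
        have := congrArg f (eqn h)
        simp only [map_pow, map_add] at this
        rw [e]; linear_combination u ^ 6 * this)
      exact ⟨S, by simp [h, h0], h1, h2⟩
  choose g g0 gx gy using this
  have hadd : ∀ R S, g (R + S) = g R + g S := fun R S => by
    by_cases hR : R = 0
    · rw [hR, zero_add, (g0 0).2 rfl, zero_add]
    by_cases hS : S = 0
    · rw [hS, add_zero, (g0 0).2 rfl, add_zero]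
    have hR' := mt (g0 R).1 hR
    have hS' := mt (g0 S).1 hS
    have iff : g R + g S = 0 ↔ R + S = 0 := by
      rw [add_eq_zero_iff hR hS, add_eq_zero_iff hR' hS', gx, gx, gy, gy, ← mul_neg, ← map_neg,
        mul_right_inj' (pow_ne_zero _ hu), mul_right_inj' (pow_ne_zero _ hu), f.injective.eq_iff,
        f.injective.eq_iff]
    by_cases h : R + S = 0
    · rw [iff.2 h, h, (g0 0).2 rfl]
    obtain ⟨m, a1, a2, a3, a4⟩ := add_data hR hS h
    have b1 := congrArg f a1
    have b2 := congrArg f a2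
    have b3 := congrArg f a3
    have b4 := congrArg f a4
    simp only [map_pow, map_add, map_sub, map_mul] at b1 b2 b3 b4
    obtain ⟨c1, c2⟩ := add_of hR' hS' (mt iff.1 h) (m := u * f m)
      (by rw [gx, gx, gy, gy]; linear_combination u ^ 3 * b1)
      (by rw [gx, gx, gy, gy]; linear_combination u ^ 4 * b2)
    have c3 : px (g (R + S)) = px (g R + g S) := by
      rw [c1, gx, gx, gx]; linear_combination u ^ 2 * b3
    refine ext_pt (mt (g0 _).1 h) (mt iff.1 h) c3 ?_
    rw [c2, ← c3, gx, gx, gy, gy]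
    linear_combination u ^ 3 * b4
  refine ⟨AddMonoidHom.mk' g hadd, ?_, gx, gy⟩
  rw [injective_iff_map_eq_zero]
  exact fun R h => (g0 R).1 h

end

end Pool.Agent.MP_adc87d_lc
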